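import Pool.Agent.TH84.SF.Spec2

/-!
# Project SF (MP_3bdc7b_an), piece T1: strong spatial mixing implies the topological Markov property
-/

set_option autoImplicit false

namespace Pool.Agent.T9h89.SF

open Pool.Agent.TH84.SF

/-- **T1** -/
theorem sT1 : S_T1 := by
  classical
  rintro G A _ _ _ X hX ⟨Δ, hΔ⟩ E
  let ED : Finset G := Finset.image₂ (fun w d => w * d) E Δ
  refine ⟨E ∪ ED, ?_⟩
  intro x hx y hy hxy z hz1 hz2
  by_contra hz
  have hopen : IsOpen Xᶜ := hX.isOpen_compl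
  obtain ⟨I, u, hu, hsub⟩ := isOpen_pi_iff.1 hopen z hz
  obtain ⟨z', hz', h1, h2, h3⟩ := hΔ E (I \ (E ∪ ED)) ((E ∪ ED) \ E) (by
    intro a ha d hd hmem
    apply (Finset.mem_sdiff.1 hmem).2
    exact Finset.mem_union_right _ (Finset.mem_image₂.2 ⟨a, ha, d, hd, rfl⟩)) x hx y hy (by
    intro w hw
    exact hxy w (Finset.mem_sdiff.1 hw).1 (Finset.mem_sdiff.1 hw).2)
  have hmem : z' ∈ (I : Set G).pi u := by
    intro g hg
    have hzz : z' g = z g := by
      by_cases hgE : g ∈ E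
      · rw [h1 g hgE, hz1 g hgE]
      · rw [hz2 g hgE]
        by_cases hgE' : g ∈ E ∪ ED
        · rw [h3 g (Finset.mem_sdiff.2 ⟨hgE', hgE⟩), hxy g hgE' hgE]
        · exact h2 g (Finset.mem_sdiff.2 ⟨hg, hgE'⟩)
    rw [hzz]
    exact (hu g hg).2
  exact hsub hmem hz'

end Pool.Agent.T9h89.SF
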