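import Pool.Agent.TH84.SF.Spec

/-!
# Project SF (MP_3bdc7b_an), piece F1: filling rules from the topological Markov property
-/

set_option autoImplicit false

namespace Pool.Agent.T9h89.SF

open Pool.Agent.TH84.SF

/-- **F1** -/
theorem sF1 : S_F1 := by
  classical
  rintro G A _ _ X ⟨Δ, hΔ⟩ hT xs hxs B
  -- the sets
  let BD : Finset G := Finset.image₂ (fun w d => w * d) B Δ
  let E : Finset G := B ∪ BD
  obtain ⟨E'', hE''⟩ := hT E
  let E' : Finset G := E ∪ E''
  let pick : Set (G → A) → (G → A) := fun S => if h : S.Nonempty then h.choose else xs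
  let S : (G → A) → Set (G → A) := fun x =>
    {z | z ∈ X ∧ (∀ w ∈ B, z w = xs w) ∧ ∀ w ∈ E' \ E, z w = x w}
  have hpick : ∀ x, (S x).Nonempty → pick (S x) ∈ S x := by
    intro x h
    show (if h : (S x).Nonempty then h.choose else xs) ∈ S x
    rw [dif_pos h]
    exact h.choose_spec
  refine ⟨E, E', fun x => pick (S x), ?_, ?_, ?_, ?_, ?_⟩
  · exact Finset.subset_union_left
  · exact Finset.subset_union_left
  · intro x y hxy e _
    have : S x = S y := by
      ext z
      constructor
      · rintro ⟨h1, h2, h3⟩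
        refine ⟨h1, h2, fun w hw => ?_⟩
        rw [h3 w hw, hxy w (Finset.mem_sdiff.1 hw).1]
      · rintro ⟨h1, h2, h3⟩
        refine ⟨h1, h2, fun w hw => ?_⟩
        rw [h3 w hw, hxy w (Finset.mem_sdiff.1 hw).1]
    show pick (S x) e = pick (S y) e
    rw [this]
  · intro x hx z hz1 hz2
    have hne : (S x).Nonempty := by
      obtain ⟨z, hz, h1, h2⟩ := hΔ B (E' \ E) (by
        intro w hw d hd hmem
        apply (Finset.mem_sdiff.1 hmem).2
        exact Finset.mem_union_right _ (Finset.mem_image₂.2 ⟨w, hw, d, hd, rfl⟩)) xs hxs x hx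
      exact ⟨z, hz, h1, h2⟩
    obtain ⟨h1, h2, h3⟩ := hpick x hne
    apply hE'' (pick (S x)) h1 x hx
    · intro g hg hgE
      exact h3 g (Finset.mem_sdiff.2 ⟨Finset.mem_union_right _ hg, hgE⟩)
    · exact hz1
    · exact hz2
  · intro x b hb
    show (if h : (S x).Nonempty then h.choose else xs) b = xs b
    split_ifs with h
    · exact h.choose_spec.2.1 b hb
    · rfl

end Pool.Agent.T9h89.SF
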